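import Pool.Agent.H15.G.R_seed8.TH641.NW.Win2
import Pool.Agent.H15.G.R_seed8.TH641.NW.Inst
import Pool.Agent.H15.G.R_seed8.TH868.NG.Fin
import Pool.Agent.H15.G.R_seed8.TH603.Cut.Main
import Pool.Agent.H15.G.R_seed8.TH387.SH.Two

/-! Sharper explicit windows for every number `n ≥ 10` of general points and arbitrary
multiplicities. -/

namespace Pool.Agent.TH885.NW

open Finset Pool.Agent.TH176.Nag Pool.Agent.TH603.Sur Pool.Agent.TH603.Cut Pool.Agent.H932R3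

/-- emptiness -/
theorem Emp_exp2 {ι : Type} [Fintype ι] {w : ι → ℕ} {n : ℕ} (hn : 10 ≤ n)
    (hcard : Fintype.card ι = n) {d k : ℕ} (hk1 : 1 ≤ k)
    (hk2 : (n : ℝ) / 2 - 11 / 6 * √(n : ℝ) + 1 ≤ k)
    (hw : (n : ℝ) * k ≤ ((∑ i, w i : ℕ) : ℝ))
    (h1 : √(n : ℝ) * (d + 11 / 6) + 9 / 8 < ((∑ i, w i : ℕ) : ℝ) + n / 2) :
    Emp w (TZ d) := by
  rcases lt_or_ge (√(n : ℝ) * d) ((∑ i, w i : ℕ) : ℝ) with hlt | hge
  · refine Pool.Agent.TH868.NG.Emp_plane (ι := ι) ?_ ?_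
    · rw [hcard]; omega
    · rw [hcard]
      push_cast at hlt
      exact hlt
  have hnR : (10 : ℝ) ≤ n := by exact_mod_cast hn
  obtain ⟨s, hsdef⟩ : ∃ s, s = √(n : ℝ) := ⟨_, rfl⟩
  obtain ⟨W, hW⟩ : ∃ W : ℝ, W = ((∑ i, w i : ℕ) : ℝ) := ⟨_, rfl⟩
  have hs : s * s = n := by rw [hsdef]; exact Real.mul_self_sqrt (by linarith)
  have hs3 : 3 ≤ s := by rw [hsdef]; exact Real.le_sqrt_of_sq_le (by norm_num; linarith)
  have hs0 : 0 < s := by linarith
  rw [← hW] at h1 hge hw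
  rw [← hsdef] at h1 hge hk2
  obtain ⟨J, hJ⟩ : ∃ J : ℕ, J = ⌊(d : ℝ) / s⌋₊ := ⟨_, rfl⟩
  have hJ1 : s * J ≤ d := by
    have := Nat.floor_le (show 0 ≤ (d : ℝ) / s by positivity)
    rw [← hJ, le_div_iff₀ hs0] at this
    linarith
  have hJ2 : (d : ℝ) < s * (J + 1) := by
    have := Nat.lt_floor_add_one ((d : ℝ) / s)
    rw [← hJ, div_lt_iff₀ hs0] at this
    linarith
  have hkJ : k ≤ J := by
    have h2 : s * (s * k) < s * (s * (J + 1)) := by
      calc s * (s * k) = n * k := by rw [← mul_assoc, hs]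
        _ ≤ s * d := hw.trans hge
        _ < s * (s * (J + 1)) := mul_lt_mul_of_pos_left hJ2 hs0
    have h3 := lt_of_mul_lt_mul_left (lt_of_mul_lt_mul_left h2 hs0.le) hs0.le
    have h4 : k < J + 1 := by exact_mod_cast h3
    omega
  have hkJR : (k : ℝ) ≤ J := by exact_mod_cast hkJ
  have hk1R : (1 : ℝ) ≤ k := by exact_mod_cast hk1
  refine Pool.Agent.TH641.NW.Emp_win_core2 Pool.Agent.TH641.NW.keyE hn hcard (J := J) ?_ ?_ ?_ ?_
  · rw [← hsdef, ← hW]; linarith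
  · rw [← hsdef]; exact hJ1
  · rw [← hsdef]; exact hJ2
  · rw [← hsdef, ← hW]
    obtain ⟨x, hx⟩ : ∃ x : ℝ, x = d - s * J := ⟨_, rfl⟩
    have hx0 : 0 ≤ x := by rw [hx]; linarith
    have hxs : x < s := by rw [hx]; linarith
    have e0 : 3 * (d : ℝ) - 3 * s * J = 3 * x := by rw [hx]; ring
    rw [e0]
    have e1 : s * d = n * J + s * x := by rw [hx, ← hs]; ring
    -- the convex function
    have hg : (s - x) * ((s - x) / 2 - 11 / 6) + 1 ≤ J := by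
      have hz0 : 0 < s - x := by linarith
      have h2 : (s - x) * ((s - x) / 2 - 11 / 6) ≤ (s - x) * (s / 2 - 11 / 6) :=
        mul_le_mul_of_nonneg_left (by linarith) hz0.le
      rcases le_total (s / 2) (11 / 6) with h3 | h3
      · have : (s - x) * (s / 2 - 11 / 6) ≤ 0 :=
          mul_nonpos_of_nonneg_of_nonpos hz0.le (by linarith)
        linarith
      · have h4 : (s - x) * (s / 2 - 11 / 6) ≤ s * (s / 2 - 11 / 6) :=
          mul_le_mul_of_nonneg_right (by linarith) (by linarith)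
        have h5 : s * (s / 2 - 11 / 6) = (n : ℝ) / 2 - 11 / 6 * s := by rw [← hs]; ring
        linarith
    have e2 : (s - x) * ((s - x) / 2 - 11 / 6) = n / 2 - s * x + x ^ 2 / 2 - 11 / 6 * s + 11 / 6 * x := by
      rw [← hs]; ring
    rw [e2] at hg
    nlinarith

/-- the number `k` for large sums -/
theorem exists_k {n : ℕ} (hn : 10 ≤ n) {W : ℝ}
    (hw : (n : ℝ) * ((n : ℝ) / 2 - 11 / 6 * √(n : ℝ) + 2) ≤ W) :
    ∃ k : ℕ, 1 ≤ k ∧ (n : ℝ) / 2 - 11 / 6 * √(n : ℝ) + 1 ≤ k ∧ (n : ℝ) * k ≤ W := by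
  have hnR : (10 : ℝ) ≤ n := by exact_mod_cast hn
  obtain ⟨s, hsdef⟩ : ∃ s, s = √(n : ℝ) := ⟨_, rfl⟩
  have hs : s * s = n := by rw [hsdef]; exact Real.mul_self_sqrt (by linarith)
  have hs3 : 3.16 ≤ s := by rw [hsdef]; exact Real.le_sqrt_of_sq_le (by norm_num; linarith)
  rw [← hsdef] at hw ⊢
  have hn0 : (0 : ℝ) < n := by linarith
  have h1 : (n : ℝ) / 2 - 11 / 6 * s + 2 ≤ W / n := by
    rw [le_div_iff₀ hn0]; linarith
  have h2 : (1 : ℝ) ≤ (n : ℝ) / 2 - 11 / 6 * s + 2 := by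
    rw [← hs]; nlinarith
  have h3 : (0 : ℝ) ≤ W / n := by linarith
  refine ⟨⌊W / n⌋₊, ?_, ?_, ?_⟩
  · rw [Nat.one_le_floor_iff]
    linarith
  · have := Nat.lt_floor_add_one (W / n)
    linarith
  · have := Nat.floor_le h3
    rw [le_div_iff₀ hn0] at this
    linarith

/-- the expected dimension is zero -/
theorem cond_exp2 {n : ℕ} (hn : 10 ≤ n) {w : Fin n → ℕ} {d : ℕ}
    (hw : (n : ℝ) * ((n : ℝ) / 2 - 11 / 6 * √(n : ℝ) + 1) ≤ ∑ i, (w i : ℝ))
    (h1 : √(n : ℝ) * (d + 11 / 6) + 9 / 8 < (∑ i, (w i : ℝ)) + n / 2) :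
    (d + 2).choose 2 ≤ ∑ i, (w i + 1).choose 2 := by
  have hnR : (10 : ℝ) ≤ n := by exact_mod_cast hn
  obtain ⟨s, hsdef⟩ : ∃ s, s = √(n : ℝ) := ⟨_, rfl⟩
  obtain ⟨W, hW⟩ : ∃ W : ℝ, W = ∑ i, (w i : ℝ) := ⟨_, rfl⟩
  have hs : s * s = n := by rw [hsdef]; exact Real.mul_self_sqrt (by linarith)
  have hs3 : 3.16 ≤ s := by rw [hsdef]; exact Real.le_sqrt_of_sq_le (by norm_num; linarith)
  have hs0 : 0 < s := by linarith
  rw [← hsdef, ← hW] at h1 hw
  have hcs : W ^ 2 ≤ n * ∑ i, (w i : ℝ) ^ 2 := by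
    have := sq_sum_le_card_mul_sum_sq (s := (Finset.univ : Finset (Fin n))) (f := fun i => (w i : ℝ))
    rw [Finset.card_univ, Fintype.card_fin, ← hW] at this
    exact this
  obtain ⟨c, hc⟩ : ∃ c : ℝ, c = 9 / 8 + s / 3 := ⟨_, rfl⟩
  have hc0 : 0 < c := by rw [hc]; positivity
  have h2 : s * ((d : ℝ) + 3 / 2) ≤ W + n / 2 - c := by rw [hc]; linarith
  have h3 : (s * ((d : ℝ) + 3 / 2)) ^ 2 ≤ (W + n / 2 - c) ^ 2 :=
    pow_le_pow_left₀ (by positivity) h2 2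
  have h4 : (n / 2 - c) ^ 2 - n / 4 ≤ 2 * c * W := by
    have h5 : 2 * c * (n * ((n : ℝ) / 2 - 11 / 6 * s + 1)) ≤ 2 * c * W :=
      mul_le_mul_of_nonneg_left hw (by positivity)
    refine le_trans ?_ h5
    rw [hc, ← hs]
    obtain ⟨u, hu, hu0⟩ : ∃ u : ℝ, s = 3.16 + u ∧ 0 ≤ u := ⟨s - 3.16, by ring, by linarith⟩
    rw [hu, ← sub_nonneg]
    ring_nf
    positivity
  have h6 : (n : ℝ) * ((d + 2) * (d + 1)) ≤ n * ∑ i, ((w i : ℝ) + 1) * w i := by
    have e1 : (n : ℝ) * ((d + 2) * (d + 1)) = (s * ((d : ℝ) + 3 / 2)) ^ 2 - n / 4 := by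
      rw [← hs]; ring
    have e2 : ∑ i, ((w i : ℝ) + 1) * w i = ∑ i, (w i : ℝ) ^ 2 + W := by
      rw [hW, ← Finset.sum_add_distrib]
      exact Finset.sum_congr rfl fun i _ => by ring
    rw [e1, e2]
    have e3 : (W + n / 2 - c) ^ 2 = W ^ 2 + n * W - 2 * c * W + (n / 2 - c) ^ 2 := by ring
    rw [mul_add]
    linarith
  have h7 : ((d : ℝ) + 2) * (d + 1) ≤ ∑ i, ((w i : ℝ) + 1) * w i :=
    le_of_mul_le_mul_left h6 (by linarith)
  have h8 : (d + 2) * (d + 1) ≤ ∑ i, (w i + 1) * w i := by exact_mod_cast h7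
  have h9 : 2 * (d + 2).choose 2 = (d + 2) * (d + 1) := by
    rw [Nat.choose_two_right]
    have h10 : 2 ∣ (d + 2) * (d + 2 - 1) := (Nat.even_mul_pred_self (d + 2)).two_dvd
    rw [Nat.mul_div_cancel' h10]
    rfl
  have h11 : ∀ i, 2 * (w i + 1).choose 2 = (w i + 1) * w i := by
    intro i
    rw [Nat.choose_two_right]
    have h10 : 2 ∣ (w i + 1) * (w i + 1 - 1) := (Nat.even_mul_pred_self (w i + 1)).two_dvd
    rw [Nat.mul_div_cancel' h10]
    rfl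
  have h12 : 2 * ∑ i, (w i + 1).choose 2 = ∑ i, (w i + 1) * w i := by
    rw [Finset.mul_sum]
    exact Finset.sum_congr rfl fun i _ => h11 i
  omega

/-- **Postulation of `n ≥ 10` general fat points of arbitrary multiplicities.** -/
theorem exp_cut2 {n : ℕ} (hn : 10 ≤ n) (w : Fin n → ℕ) :
    ∃ F : MvPolynomial (Fin n × Fin 2) ℚ, F ≠ 0 ∧
      ∀ {L : Type} [Field L] [CharZero L] (P : Fin n → Fin 2 → L),
        MvPolynomial.aeval (fun ij : Fin n × Fin 2 => P ij.1 ij.2) F ≠ 0 →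
        ∀ d : ℕ, (√(n : ℝ) * d < ∑ i, (w i : ℝ) ∨
          ((∃ k : ℕ, 1 ≤ k ∧ (n : ℝ) / 2 - 11 / 6 * √(n : ℝ) + 1 ≤ k ∧ (n : ℝ) * k ≤ ∑ i, (w i : ℝ)) ∧
            √(n : ℝ) * (d + 11 / 6) + 9 / 8 < (∑ i, (w i : ℝ)) + n / 2) ∨
          ∃ b : ℕ, (∀ i, w i ≤ b + 1) ∧
            ((n : ℝ) + ∑ i, ((max (w i) b : ℕ) : ℝ) < √(n : ℝ) * (d + 3) ∨
              (∑ i, ((max (w i) b : ℕ) : ℝ)) + n / 2 + √(n : ℝ) / 3 + 1 / 8 <
                √(n : ℝ) * (d + 3 / 2))) →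
          ExpDim L w P d := by
  have hnR : (10 : ℝ) ≤ n := by exact_mod_cast hn
  have hs : 1 ≤ √(n : ℝ) := Real.one_le_sqrt.2 (by linarith)
  have hs0 : 0 < √(n : ℝ) := by linarith
  have hsum : (∑ i, (w i : ℝ)) = ((∑ i, w i : ℕ) : ℝ) := by push_cast; rfl
  have hA : ∀ d : ℕ, (√(n : ℝ) * d < ∑ i, (w i : ℝ) ∨
      ((∃ k : ℕ, 1 ≤ k ∧ (n : ℝ) / 2 - 11 / 6 * √(n : ℝ) + 1 ≤ k ∧ (n : ℝ) * k ≤ ∑ i, (w i : ℝ)) ∧
        √(n : ℝ) * (d + 11 / 6) + 9 / 8 < (∑ i, (w i : ℝ)) + n / 2)) → d ≤ ∑ i, w i + n := by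
    intro d hd
    rw [hsum] at hd
    have h1 : (d : ℝ) ≤ √(n : ℝ) * d := le_mul_of_one_le_left (Nat.cast_nonneg _) hs
    rcases hd with hd | ⟨_, hd⟩
    · have h2 : (d : ℝ) < ((∑ i, w i : ℕ) : ℝ) := by linarith
      have : d < ∑ i, w i := by exact_mod_cast h2
      omega
    · have h2 : (d : ℝ) ≤ ((∑ i, w i + n : ℕ) : ℝ) := by rw [Nat.cast_add]; linarith
      exact_mod_cast h2
  have hAE : ∀ d : ℕ, (√(n : ℝ) * d < ∑ i, (w i : ℝ) ∨
      ((∃ k : ℕ, 1 ≤ k ∧ (n : ℝ) / 2 - 11 / 6 * √(n : ℝ) + 1 ≤ k ∧ (n : ℝ) * k ≤ ∑ i, (w i : ℝ)) ∧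
        √(n : ℝ) * (d + 11 / 6) + 9 / 8 < (∑ i, (w i : ℝ)) + n / 2)) → Emp w (TZ d) := by
    intro d hd
    rcases hd with hd | ⟨⟨k, hk1, hk2, hk3⟩, hd2⟩
    · refine Pool.Agent.TH868.NG.Emp_plane (ι := Fin n) ?_ ?_
      · rw [Fintype.card_fin]; omega
      · rw [Fintype.card_fin]; exact hd
    · rw [hsum] at hk3 hd2
      exact Emp_exp2 hn (Fintype.card_fin _) hk1 hk2 hk3 hd2
  have hBS : ∀ d : ℕ, (∃ b : ℕ, (∀ i, w i ≤ b + 1) ∧
      ((n : ℝ) + ∑ i, ((max (w i) b : ℕ) : ℝ) < √(n : ℝ) * (d + 3) ∨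
        (∑ i, ((max (w i) b : ℕ) : ℝ)) + n / 2 + √(n : ℝ) / 3 + 1 / 8 < √(n : ℝ) * (d + 3 / 2))) →
      Sur w (TZ d) := by
    rintro d ⟨b, hb, hlt | hlt⟩
    · refine Pool.Agent.TH387.SH.Sur_plane (ι := Fin n) (by rw [Fintype.card_fin]; exact hn) hb ?_
      rw [Fintype.card_fin]
      push_cast at hlt ⊢
      exact hlt
    · refine Pool.Agent.TH641.NW.Sur_win2 Pool.Agent.TH641.NW.keyS hn (Fintype.card_fin n) hb ?_
      push_cast at hlt ⊢
      exact hlt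
  obtain ⟨F, hF, hF'⟩ := expDim_two (w := w) _ hA hAE hBS
  refine ⟨F, hF, fun {L} _ _ P hP d hd => hF' P hP d ?_⟩
  rcases hd with hd | hd | hd
  · exact Or.inl (Or.inl hd)
  · exact Or.inl (Or.inr hd)
  · exact Or.inr hd

/-- the length of the window below -/
noncomputable def loW (n : ℕ) : ℝ := min (√(n : ℝ) - 3) (2 / 3 + 9 / (4 * √(n : ℝ)))

/-- the length of the window above -/
noncomputable def upW (n : ℕ) : ℝ := min (√(n : ℝ) - 3) (2 / 3 + 1 / (4 * √(n : ℝ)))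

theorem win_len {n : ℕ} (hn : 10 ≤ n) : 0 ≤ upW n ∧ upW n ≤ loW n ∧ loW n + upW n < 2 := by
  have hnR : (10 : ℝ) ≤ n := by exact_mod_cast hn
  obtain ⟨s, hsdef⟩ : ∃ s, s = √(n : ℝ) := ⟨_, rfl⟩
  have hs3 : 3 ≤ s := by rw [hsdef]; exact Real.le_sqrt_of_sq_le (by norm_num; linarith)
  have hs0 : 0 < s := by linarith
  unfold upW loW
  rw [← hsdef]
  have h1 : 1 / (4 * s) ≤ 9 / (4 * s) := div_le_div_of_nonneg_right (by norm_num) (by positivity)
  have h0 : 0 < 1 / (4 * s) := by positivity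
  refine ⟨le_min (by linarith) (by positivity), min_le_min le_rfl (by linarith), ?_⟩
  rcases le_or_gt (3.9 : ℝ) s with h | h
  · have h2 : 9 / (4 * s) < 0.6 := by
      rw [div_lt_iff₀ (by positivity)]; linarith
    have h3 : 1 / (4 * s) < 0.065 := by
      rw [div_lt_iff₀ (by positivity)]; linarith
    have h4 := min_le_right (s - 3) (2 / 3 + 9 / (4 * s))
    have h5 := min_le_right (s - 3) (2 / 3 + 1 / (4 * s))
    linarith
  · have h4 := min_le_left (s - 3) (2 / 3 + 9 / (4 * s))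
    have h5 := min_le_left (s - 3) (2 / 3 + 1 / (4 * s))
    linarith

/-- at most one degree in the window -/
theorem exists_deg {n : ℕ} (hn : 10 ≤ n) (T : ℝ) :
    ∃ d0 : ℕ, ∀ d : ℕ, d ≠ d0 → (upW n < 2 * (d : ℝ) + 3 - T ∨ 2 * (d : ℝ) + 3 - T < - loW n) := by
  obtain ⟨-, -, h⟩ := win_len hn
  by_cases hex : ∃ d : ℕ, ¬ (upW n < 2 * (d : ℝ) + 3 - T ∨ 2 * (d : ℝ) + 3 - T < - loW n)
  · obtain ⟨d0, hd0⟩ := hex
    refine ⟨d0, fun d hd => ?_⟩
    by_contra hcon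
    push Not at hcon hd0
    rcases lt_or_gt_of_ne hd with h1 | h1
    · have : (d : ℝ) + 1 ≤ d0 := by exact_mod_cast h1
      linarith
    · have : (d0 : ℝ) + 1 ≤ d := by exact_mod_cast h1
      linarith
  · push Not at hex
    exact ⟨0, fun d _ => by
      by_contra hcon
      push Not at hcon
      have := hex d
      rcases this with h1 | h1
      · linarith
      · linarith⟩

/-- **The expected dimension at `n ≥ 10` general points of multiplicities `m` and `m + 1`.** -/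
theorem exp_near2 {n m : ℕ} (hn : 10 ≤ n) (hm : 1 ≤ m) {w : Fin n → ℕ}
    (hw : ∀ i, w i = m ∨ w i = m + 1) {L : Type} [Field L] [CharZero L] :
    ∃ F : MvPolynomial (Fin n × Fin 2) ℚ, F ≠ 0 ∧ ∀ (P : Fin n → Fin 2 → L),
      MvPolynomial.aeval (fun ij : Fin n × Fin 2 => P ij.1 ij.2) F ≠ 0 →
      ∀ d : ℕ, (upW n < 2 * (d : ℝ) + 3 - (√(n : ℝ) + 2 * (∑ i, (w i : ℝ)) / √(n : ℝ)) ∨
          2 * (d : ℝ) + 3 - (√(n : ℝ) + 2 * (∑ i, (w i : ℝ)) / √(n : ℝ)) < - loW n) →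
        ExpDim L w P d := by
  have hnR : (10 : ℝ) ≤ n := by exact_mod_cast hn
  have hs3 : (3 : ℝ) ≤ √(n : ℝ) := Real.le_sqrt_of_sq_le (by norm_num; linarith)
  rcases le_or_gt (((m + 1 : ℕ) : ℝ)) ((n : ℝ) - 6 * √(n : ℝ) + 11) with hsm | hlg
  · obtain ⟨F, hF, hF'⟩ := near_points (L := L) (n := n) (m := m) hn hm hw
      (near_cond (by omega) hw (Or.inl hsm))
    exact ⟨F, hF, fun P hP d _ => hF' P hP d⟩
  · obtain ⟨F, hF, hF'⟩ := exp_cut2 hn w
    refine ⟨F, hF, fun P hP d hd => hF' P hP d ?_⟩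
    unfold upW loW at hd
    obtain ⟨s, hsdef⟩ : ∃ s, s = √(n : ℝ) := ⟨_, rfl⟩
    obtain ⟨W, hW⟩ : ∃ W : ℝ, W = ∑ i, (w i : ℝ) := ⟨_, rfl⟩
    have hs : s * s = n := by rw [hsdef]; exact Real.mul_self_sqrt (by linarith)
    rw [← hsdef] at hs3
    have hs0 : 0 < s := by linarith
    have hb : ∀ i, w i ≤ m + 1 := fun i => by rcases hw i with h | h <;> omega
    have hmax : ∑ i, ((max (w i) m : ℕ) : ℝ) = W := by
      rw [hW]
      refine Finset.sum_congr rfl fun i _ => ?_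
      have : max (w i) m = w i := by rcases hw i with h | h <;> omega
      rw [this]
    have e0 : 2 * W / s * s = 2 * W := div_mul_cancel₀ _ hs0.ne'
    rw [← hsdef, ← hW] at hd ⊢
    rcases hd with hd | hd
    · right; right
      refine ⟨m, hb, ?_⟩
      rw [hmax]
      rcases min_lt_iff.1 hd with hd | hd
      · left
        have h1 := mul_lt_mul_of_pos_right hd hs0
        nlinarith
      · right
        have h1 := mul_lt_mul_of_pos_right hd hs0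
        have e1 : 1 / (4 * s) * s = 1 / 4 := by field_simp
        have e2 : (2 / 3 + 1 / (4 * s)) * s = 2 / 3 * s + 1 / 4 := by rw [add_mul, e1]
        rw [e2] at h1
        nlinarith
    · rw [lt_neg] at hd
      rcases min_lt_iff.1 hd with hd | hd
      · left
        have h1 := mul_lt_mul_of_pos_right hd hs0
        nlinarith
      · right; left
        constructor
        · refine ⟨m, hm, ?_, ?_⟩
          · rw [← hsdef] at hlg
            push_cast at hlg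
            have h3 : 0 ≤ (s - 25 / 6) ^ 2 := sq_nonneg _
            have e1 : (s - 25 / 6) ^ 2 = n - 25 / 3 * s + 625 / 36 := by rw [← hs]; ring
            rw [e1] at h3
            linarith
          · have : (n : ℝ) * m = ∑ _i : Fin n, (m : ℝ) := by simp
            rw [this, hW]
            refine sum_le_sum fun i _ => ?_
            rcases hw i with h | h <;> rw [h]
            push_cast
            linarith
        · have h1 := mul_lt_mul_of_pos_right hd hs0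
          have e1 : 9 / (4 * s) * s = 9 / 4 := by field_simp
          have e2 : (2 / 3 + 9 / (4 * s)) * s = 2 / 3 * s + 9 / 4 := by rw [add_mul, e1]
          rw [e2] at h1
          nlinarith

/-- **The expected dimension at `n ≥ 10` general points of one multiplicity.** -/
theorem exp_uni2 {n m : ℕ} (hn : 10 ≤ n) (hm : 1 ≤ m) {L : Type} [Field L] [CharZero L] :
    ∃ F : MvPolynomial (Fin n × Fin 2) ℚ, F ≠ 0 ∧ ∀ (P : Fin n → Fin 2 → L),
      MvPolynomial.aeval (fun ij : Fin n × Fin 2 => P ij.1 ij.2) F ≠ 0 →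
      ∀ d : ℕ, (upW n < 2 * (d : ℝ) + 3 - √(n : ℝ) * (2 * m + 1) ∨
          2 * (d : ℝ) + 3 - √(n : ℝ) * (2 * m + 1) < - loW n) →
        ExpDim L (fun _ => m) P d := by
  obtain ⟨F, hF, hF'⟩ := exp_near2 (L := L) hn hm (w := fun _ : Fin n => m) (fun _ => Or.inl rfl)
  refine ⟨F, hF, fun P hP d hd => hF' P hP d ?_⟩
  have e : 2 * (∑ _i : Fin n, (m : ℝ)) / √(n : ℝ) = 2 * (√(n : ℝ) * m) := by
    rw [Finset.sum_const, Finset.card_univ, Fintype.card_fin, nsmul_eq_mul, mul_div_assoc,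
      mul_comm (n : ℝ), mul_div_assoc, Real.div_sqrt]
    ring
  rw [e]
  have e2 : √(n : ℝ) + 2 * (√(n : ℝ) * m) = √(n : ℝ) * (2 * m + 1) := by
    ring
  rw [e2]
  exact hd

/-- **Curves through `n ≥ 10` very general points with large multiplicities have large degree.** -/
theorem exp_degree2 {n : ℕ} (hn : 10 ≤ n) (w : Fin n → ℕ) {k : ℕ} (hk1 : 1 ≤ k)
    (hk2 : (n : ℝ) / 2 - 11 / 6 * √(n : ℝ) + 1 ≤ k) (hw : (n : ℝ) * k ≤ ∑ i, (w i : ℝ))
    {L : Type} [Field L] [CharZero L] (P : Fin n → Fin 2 → L)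
    (hP : AlgebraicIndependent ℚ (fun ij : Fin n × Fin 2 => P ij.1 ij.2))
    (d : ℕ) (G : MvPolynomial (Fin 3) L) (hG : G ≠ 0) (hGd : G.IsHomogeneous d)
    (hGm : ∀ i, G ∈ (Ideal.span ({MvPolynomial.X 0 - MvPolynomial.C (P i 0) * MvPolynomial.X 2,
          MvPolynomial.X 1 - MvPolynomial.C (P i 1) * MvPolynomial.X 2} :
            Set (MvPolynomial (Fin 3) L))) ^ (w i)) :
    (∑ i, (w i : ℝ)) + (n : ℝ) / 2 ≤ √(n : ℝ) * (d + 11 / 6) + 9 / 8 := by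
  by_contra hcon
  push Not at hcon
  obtain ⟨F, hF, hF'⟩ := exp_cut2 hn w
  have h1 := hF' P (fun h0 => hF (hP.eq_zero_of_aeval_eq_zero F h0)) d
    (Or.inr (Or.inl ⟨⟨k, hk1, hk2, hw⟩, hcon⟩))
  have h3 := cond_exp2 hn ((mul_le_mul_of_nonneg_left hk2 (Nat.cast_nonneg n)).trans hw) hcon
  unfold ExpDim at h1
  have h4 : (d + 2).choose 2 - ∑ i, (w i + 1).choose 2 = 0 := Nat.sub_eq_zero_of_le h3
  rw [h4] at h1
  have : Module.Finite L ↥(MvPolynomial.homogeneousSubmodule (Fin 3) L d ⊓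
      Submodule.restrictScalars L
        (⨅ i : Fin n, (Ideal.span ({MvPolynomial.X 0 - MvPolynomial.C (P i 0) * MvPolynomial.X 2,
          MvPolynomial.X 1 - MvPolynomial.C (P i 1) * MvPolynomial.X 2} :
            Set (MvPolynomial (Fin 3) L))) ^ (w i))) := by
    have : Module.Finite L ↥(MvPolynomial.homogeneousSubmodule (Fin 3) L d) :=
      Module.finite_of_finrank_pos (by
        rw [TH603.Sur.finrank_forms]
        exact Nat.choose_pos (by omega))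
    exact Submodule.finiteDimensional_inf_left _ _
  have h5 := Submodule.finrank_eq_zero.1 h1
  apply hG
  have h6 : G ∈ (MvPolynomial.homogeneousSubmodule (Fin 3) L d ⊓
      Submodule.restrictScalars L
        (⨅ i : Fin n, (Ideal.span ({MvPolynomial.X 0 - MvPolynomial.C (P i 0) * MvPolynomial.X 2,
          MvPolynomial.X 1 - MvPolynomial.C (P i 1) * MvPolynomial.X 2} :
            Set (MvPolynomial (Fin 3) L))) ^ (w i))) := by
    refine ⟨hGd, ?_⟩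
    show G ∈ (⨅ i : Fin n, _ : Ideal _)
    rw [Ideal.mem_iInf]
    exact hGm
  rw [h5] at h6
  exact (Submodule.mem_bot L).1 h6

end Pool.Agent.TH885.NW
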